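import Pool.Agent.N299.ND.Stm

set_option autoImplicit false

/-!
Project ND (helper299), part OZL: structure of completely positive order zero maps on matrix algebras.
-/

open scoped Matrix.Norms.L2Operator

noncomputable section

namespace Pool.Agent.N545.ND

open Pool.Agent.N299 Pool.Agent.N299.ND

section general

variable {R B : Type} [CStarAlgebra R] [CStarAlgebra B] {φ : R →ₗ[ℂ] B}

lemma oz_pos (hcp : ∀ (r : ℕ) (a : Fin r → R) (b : Fin r → B),
    Pos (∑ i, ∑ j, star (b i) * φ (star (a i) * a j) * b j)) (x : R) (hx : Pos x) : Pos (φ x) := by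
  obtain ⟨y, rfl⟩ := hx
  have h := hcp 1 (fun _ => y) (fun _ => 1)
  simpa using h

lemma oz_star (hcp : ∀ (r : ℕ) (a : Fin r → R) (b : Fin r → B),
    Pos (∑ i, ∑ j, star (b i) * φ (star (a i) * a j) * b j)) (x : R) : φ (star x) = star (φ x) := by
  have h1 : ∀ a : R, star a = a → star (φ a) = φ a := by
    intro a ha
    have e : a = (1 / 4 : ℂ) • (star (a + 1) * (a + 1) - star (a - 1) * (a - 1)) := by
      rw [star_add, star_sub, star_one, ha]
      have : (a + 1) * (a + 1) - (a - 1) * (a - 1) = (4 : ℂ) • a := by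
        rw [show (4 : ℂ) = ((4 : ℕ) : ℂ) by norm_num, Nat.cast_smul_eq_nsmul]
        noncomm_ring
      rw [this, smul_smul]
      norm_num
    have p1 := (oz_pos hcp _ (pos_star_mul (a + 1))).sa
    have p2 := (oz_pos hcp _ (pos_star_mul (a - 1))).sa
    rw [e, map_smul, map_sub, star_smul, star_sub, p1, p2]
    congr 1
    simp
  have h2 : x = (realPart x : R) + Complex.I • (imaginaryPart x : R) :=
    (realPart_add_I_smul_imaginaryPart x).symm
  have r1 : star (realPart x : R) = (realPart x : R) := (realPart x).2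
  have r2 : star (imaginaryPart x : R) = (imaginaryPart x : R) := (imaginaryPart x).2
  generalize (realPart x : R) = p at h2 r1
  generalize (imaginaryPart x : R) = q at h2 r2
  subst h2
  rw [star_add, star_smul, r1, r2, map_add, map_add, map_smul, map_smul, star_add, star_smul,
    h1 p r1, h1 q r2]

lemma pos_norm {a : B} (ha : Pos a) {r : ℝ} (h : ‖a‖ ≤ r) : Pos ((r : ℂ) • (1 : B) - a) := by
  have h1 := pos_perturb (x := (0 : B)) (y := -a) pos_zero (by rw [star_neg, ha.sa]) (δ := r)
    (by rwa [zero_sub, neg_neg])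
  rwa [neg_add_eq_sub] at h1

/-- multiplicative domain trick -/
lemma oz_zero (hcp : ∀ (r : ℕ) (a : Fin r → R) (b : Fin r → B),
    Pos (∑ i, ∑ j, star (b i) * φ (star (a i) * a j) * b j)) (hn : ∀ x, ‖φ x‖ ≤ ‖x‖)
    {q : R} (hq1 : star q = q) (hq2 : q * q = q) {y : B} (hy : φ q * y = 0) (x : R) :
    φ (x * q) * y = 0 := by
  obtain ⟨x, rfl⟩ : ∃ x', x = star x' := ⟨star x, (star_star x).symm⟩
  set v := φ (star x * q) * y with hv
  set N : ℝ := ‖x‖ ^ 2 with hN
  have hN0 : 0 ≤ N := by positivity
  set t : ℝ := 1 / (1 + N) with ht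
  have ht0 : 0 < t := by positivity
  have htN : t * N ≤ 1 := by
    rw [ht, div_mul_eq_mul_div, one_mul, div_le_one (by positivity)]
    linarith
  -- the positive matrix
  have h1 := hcp 2 ![x, q] ![-((t : ℂ) • v), y]
  simp only [Fin.sum_univ_two, Matrix.cons_val_zero, Matrix.cons_val_one] at h1
  have hqx : φ (star q * x) = star (φ (star x * q)) := by
    rw [← oz_star hcp, star_mul, star_star]
  have e1 : star (-((t : ℂ) • v)) * φ (star x * x) * -((t : ℂ) • v) =
      ((t ^ 2 : ℝ) : ℂ) • (star v * φ (star x * x) * v) := by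
    rw [star_neg, star_smul, neg_mul, neg_mul, mul_neg, neg_neg, smul_mul_assoc, smul_mul_assoc,
      mul_smul_comm, smul_smul, Complex.star_def, Complex.conj_ofReal]
    congr 1
    push_cast
    ring
  have e2 : star (-((t : ℂ) • v)) * φ (star x * q) * y = -((t : ℂ) • (star v * v)) := by
    rw [mul_assoc, ← hv, star_neg, star_smul, neg_mul, smul_mul_assoc]
    simp
  have e3 : star y * φ (star q * x) * -((t : ℂ) • v) = -((t : ℂ) • (star v * v)) := by
    rw [hqx, ← star_mul, ← hv, mul_neg, mul_smul_comm]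
  have e4 : star y * φ (star q * q) * y = 0 := by
    rw [hq1, hq2, mul_assoc, hy, mul_zero]
  rw [e1, e2, e3, e4, add_zero] at h1
  -- the bound for the corner
  have h2 : Pos ((N : ℂ) • (1 : B) - φ (star x * x)) := by
    apply pos_norm (oz_pos hcp _ (pos_star_mul x))
    refine (hn _).trans (le_of_eq ?_)
    rw [CStarRing.norm_star_mul_self, hN, sq]
  have h3 := (h2.conj v).smul (show (0 : ℝ) ≤ t ^ 2 by positivity)
  have h4 := h1.add h3
  have e5 : ((t ^ 2 : ℝ) : ℂ) • (star v * φ (star x * x) * v) + -((t : ℂ) • (star v * v)) +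
      -((t : ℂ) • (star v * v)) + ((t ^ 2 : ℝ) : ℂ) • (star v * ((N : ℂ) • (1 : B) - φ (star x * x)) * v) =
      -(((t * (2 - t * N) : ℝ) : ℂ) • (star v * v)) := by
    rw [mul_sub, sub_mul, mul_smul_comm, mul_one, smul_mul_assoc, smul_sub, smul_smul]
    have : ((t * (2 - t * N) : ℝ) : ℂ) = (t : ℂ) + t - ((t ^ 2 : ℝ) : ℂ) * N := by
      push_cast
      ring
    rw [this, sub_smul, add_smul]
    abel
  rw [e5] at h4
  have hc : 0 < t * (2 - t * N) := by
    apply mul_pos ht0
    linarith
  have h5 := h4.smul (inv_nonneg.2 hc.le)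
  have e6 : (((t * (2 - t * N))⁻¹ : ℝ) : ℂ) • -(((t * (2 - t * N) : ℝ) : ℂ) • (star v * v)) =
      ((0 : ℝ) : ℂ) • (star (0 : B) * 0) - star v * v := by
    rw [smul_neg, smul_smul, ← Complex.ofReal_mul, inv_mul_cancel₀ hc.ne']
    simp
  rw [e6] at h5
  have h6 := norm_sq_le_of_pos le_rfl h5
  rw [zero_mul] at h6
  have h7 : ‖v‖ = 0 := by
    have := norm_nonneg v
    nlinarith
  exact norm_eq_zero.1 h7

/-- the identity for a projection -/
lemma oz_proj (hcp : ∀ (r : ℕ) (a : Fin r → R) (b : Fin r → B),
    Pos (∑ i, ∑ j, star (b i) * φ (star (a i) * a j) * b j)) (hn : ∀ x, ‖φ x‖ ≤ ‖x‖)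
    (hoz : ∀ x y, Pos x → Pos y → x * y = 0 → φ x * φ y = 0)
    {p : R} (hp1 : star p = p) (hp2 : p * p = p) (x : R) : φ x * φ p = φ (x * p) * φ 1 := by
  have hq1 : star (1 - p) = 1 - p := by rw [star_sub, star_one, hp1]
  have hq2 : (1 - p) * (1 - p) = 1 - p := by
    rw [mul_sub, mul_one, sub_mul, one_mul, hp2, sub_self, sub_zero]
  have pp : Pos p := ⟨p, by rw [hp1, hp2]⟩
  have pq : Pos (1 - p) := ⟨1 - p, by rw [hq1, hq2]⟩
  have z1 : φ (1 - p) * φ p = 0 := hoz _ _ pq pp (by rw [sub_mul, one_mul, hp2, sub_self])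
  have z2 : φ p * φ (1 - p) = 0 := hoz _ _ pp pq (by rw [mul_sub, mul_one, hp2, sub_self])
  have w1 := oz_zero hcp hn hq1 hq2 z1 x
  have w2 := oz_zero hcp hn hp1 hp2 z2 x
  have e1 : φ x = φ (x * p) + φ (x * (1 - p)) := by
    rw [← map_add, ← mul_add, add_sub_cancel, mul_one]
  have e2 : φ 1 = φ p + φ (1 - p) := by
    rw [← map_add, add_sub_cancel]
  rw [e1, e2, add_mul, w1, add_zero, mul_add, w2, add_zero]

end general

/-- projections span the matrices -/
lemma span_proj {n : ℕ} (V : Submodule ℂ (M n)) (h : ∀ p : M n, star p = p → p * p = p → p ∈ V)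
    (x : M n) : x ∈ V := by
  have hd : ∀ i : Fin (n + 1), (mu i i : M n) ∈ V := by
    intro i
    apply h
    · rw [mu, Matrix.star_eq_conjTranspose, Matrix.conjTranspose_single, star_one]
    · rw [mu, Matrix.single_mul_single_same, one_mul]
  have ho : ∀ i j : Fin (n + 1), i ≠ j → ∀ z : ℂ, z * star z = 1 →
      z • (mu i j : M n) + star z • mu j i ∈ V := by
    intro i j hij z hz
    have hii : (mu i i : M n) * mu i i = mu i i := by simp [mu]
    have hjj : (mu j j : M n) * mu j j = mu j j := by simp [mu]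
    have hij1 : (mu i i : M n) * mu j j = 0 := by simp [mu, hij]
    have hij2 : (mu j j : M n) * mu i i = 0 := by simp [mu, hij.symm]
    have a1 : (mu i i : M n) * mu i j = mu i j := by simp [mu]
    have a2 : (mu i i : M n) * mu j i = 0 := by simp [mu, hij]
    have a3 : (mu j j : M n) * mu i j = 0 := by simp [mu, hij.symm]
    have a4 : (mu j j : M n) * mu j i = mu j i := by simp [mu]
    have b1 : (mu i j : M n) * mu i i = 0 := by simp [mu, hij.symm]
    have b2 : (mu j i : M n) * mu i i = mu j i := by simp [mu]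
    have b3 : (mu i j : M n) * mu j j = mu i j := by simp [mu]
    have b4 : (mu j i : M n) * mu j j = 0 := by simp [mu, hij]
    have c1 : (mu i j : M n) * mu i j = 0 := by simp [mu, hij.symm]
    have c2 : (mu i j : M n) * mu j i = mu i i := by simp [mu]
    have c3 : (mu j i : M n) * mu i j = mu j j := by simp [mu]
    have c4 : (mu j i : M n) * mu j i = 0 := by simp [mu, hij]
    have s1 : star (mu i j : M n) = mu j i := by
      rw [mu, Matrix.star_eq_conjTranspose, Matrix.conjTranspose_single, star_one]; rfl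
    have s2 : star (mu j i : M n) = mu i j := by
      rw [mu, Matrix.star_eq_conjTranspose, Matrix.conjTranspose_single, star_one]; rfl
    have s3 : star (mu i i : M n) = mu i i := by
      rw [mu, Matrix.star_eq_conjTranspose, Matrix.conjTranspose_single, star_one]
    have s4 : star (mu j j : M n) = mu j j := by
      rw [mu, Matrix.star_eq_conjTranspose, Matrix.conjTranspose_single, star_one]
    have hP := h ((1 / 2 : ℂ) • ((mu i i : M n) + mu j j + (z • mu i j + star z • mu j i)))
      (by
        rw [star_smul, star_add, star_add, star_add, star_smul, star_smul, s1, s2, s3, s4, star_star]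
        congr 1
        · simp
        · rw [add_comm (star z • mu j i)])
      (by
        rw [smul_mul_smul_comm]
        simp only [add_mul, mul_add, smul_mul_assoc, mul_smul_comm, hii, hjj, hij1, hij2, a1, a2, a3,
          a4, b1, b2, b3, b4, c1, c2, c3, c4, smul_zero, add_zero, zero_add, smul_add, smul_smul]
        rw [hz, show star z * z = 1 by rw [mul_comm]; exact hz]
        module)
    have h2 : z • (mu i j : M n) + star z • mu j i =
        (2 : ℂ) • ((1 / 2 : ℂ) • ((mu i i : M n) + mu j j + (z • mu i j + star z • mu j i))) -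
          mu i i - mu j j := by
      module
    rw [h2]
    exact V.sub_mem (V.sub_mem (V.smul_mem _ hP) (hd i)) (hd j)
  have hmu : ∀ i j : Fin (n + 1), (mu i j : M n) ∈ V := by
    intro i j
    by_cases hij : i = j
    · rw [hij]
      exact hd j
    · have t1 := ho i j hij 1 (by simp)
      have t2 := ho i j hij Complex.I (by simp)
      have h2 : (mu i j : M n) = (1 / 2 : ℂ) • ((1 : ℂ) • (mu i j : M n) + star (1 : ℂ) • mu j i) -
          (Complex.I / 2) • (Complex.I • (mu i j : M n) + star Complex.I • mu j i) := by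
        rw [star_one, Complex.star_def, Complex.conj_I]
        simp only [smul_add, smul_smul]
        have e1 : Complex.I / 2 * Complex.I = -(1 / 2) := by
          rw [div_mul_eq_mul_div, Complex.I_mul_I]
          ring
        have e2 : Complex.I / 2 * -Complex.I = 1 / 2 := by
          rw [mul_neg, e1, neg_neg]
        rw [e1, e2]
        module
      rw [h2]
      exact V.sub_mem (V.smul_mem _ t1) (V.smul_mem _ t2)
  rw [Matrix.matrix_eq_sum_single x]
  refine V.sum_mem fun i _ => V.sum_mem fun j _ => ?_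
  have h3 : Matrix.single i j (x i j) = (x i j) • (mu i j : M n) := by
    rw [mu, Matrix.smul_single, smul_eq_mul, mul_one]
  rw [h3]
  exact V.smul_mem _ (hmu i j)

theorem t_OZL : S_OZL := by
  intro n B _ φ hcp hn hoz
  have key : ∀ y x : M n, φ x * φ y = φ (x * y) * φ 1 := by
    intro y
    let V : Submodule ℂ (M n) :=
      { carrier := {y | ∀ x : M n, φ x * φ y = φ (x * y) * φ 1}
        add_mem' := by
          intro a b ha hb x
          rw [map_add, mul_add, ha x, hb x, mul_add, map_add, add_mul]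
        zero_mem' := by
          intro x
          simp
        smul_mem' := by
          intro c a ha x
          rw [map_smul, mul_smul_comm, ha x, mul_smul_comm, map_smul, smul_mul_assoc] }
    exact span_proj V (fun p hp1 hp2 x => oz_proj hcp hn hoz hp1 hp2 x) y
  have comm : ∀ x, φ 1 * φ x = φ x * φ 1 := by
    intro x
    rw [key x 1, one_mul]
  refine ⟨oz_star hcp, fun x y => ?_, comm, oz_pos hcp, ?_, hn⟩
  · rw [key y x, comm]
  · have h1 := pos_norm (oz_pos hcp 1 ⟨1, by simp⟩) (r := 1) ((hn 1).trans (le_of_eq norm_one))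
    simpa using h1

end Pool.Agent.N545.ND
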